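import Pool.Agent.Helper89.A8.Stmts
import Pool.Agent.Helper89.A8.GTools

/-!
# Block G20 of project A8 (MP_93c1ff): an invariant cover of the transvection group
-/

set_option autoImplicit false

namespace Pool.Agent.A8

open Matrix
open scoped commutatorElement

namespace G20

/-- the transvections with centre `e₀` -/
def tt (a b c : ZMod 2) : Gam := mkG !![1,a,b,c; 0,1,0,0; 0,0,1,0; 0,0,0,1]
  !![1,a,b,c; 0,1,0,0; 0,0,1,0; 0,0,0,1]
  (by revert a b c; decide) (by revert a b c; decide)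

theorem tt_mul (a b c a' b' c' : ZMod 2) :
    tt a b c * tt a' b' c' = tt (a + a') (b + b') (c + c') := by
  apply Units.ext
  revert a b c a' b' c'
  decide +kernel

theorem tt_zero : tt 0 0 0 = 1 := by
  apply Units.ext
  decide

theorem tt_sq (a b c : ZMod 2) : tt a b c * tt a b c = 1 := by
  rw [tt_mul, ← tt_zero]
  revert a b c
  decide

theorem tt_inj {a b c : ZMod 2} (h : tt a b c = 1) : a = 0 ∧ b = 0 ∧ c = 0 := by
  have h1 : (tt a b c).1 = 1 := by rw [h]; rfl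
  exact ⟨congrFun (congrFun h1 0) 1, congrFun (congrFun h1 0) 2, congrFun (congrFun h1 0) 3⟩

theorem gt_eq : gt = tt 1 0 0 := by
  apply Units.ext
  decide

theorem conj_gh (a b c : ZMod 2) : gh * tt a b c * gh⁻¹ = tt (a + c) a b := by
  apply Units.ext
  revert a b c
  decide +kernel

theorem conj_gs (a b c : ZMod 2) : gs * tt a b c * gs⁻¹ = tt a (b + c) b := by
  apply Units.ext
  revert a b c
  decide +kernel

theorem mem_TT {g : Gam} : g ∈ TT ↔ ∃ a b c, g = tt a b c := by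
  constructor
  · rintro ⟨h1, h2⟩
    refine ⟨g.1 0 1, g.1 0 2, g.1 0 3, Units.ext ?_⟩
    ext i j
    fin_cases i
    · fin_cases j
      · exact h1
      · rfl
      · rfl
      · rfl
    · exact (h2 0 j).trans (by fin_cases j <;> rfl)
    · exact (h2 1 j).trans (by fin_cases j <;> rfl)
    · exact (h2 2 j).trans (by fin_cases j <;> rfl)
  · rintro ⟨a, b, c, rfl⟩
    constructor
    · rfl
    · intro i j
      fin_cases i <;> fin_cases j <;> rfl

theorem pow_val {M : Type*} [Monoid M] {x : M} (h : x * x = 1) (a b : ZMod 2) :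
    x ^ a.val * x ^ b.val = x ^ (a + b).val := by
  have key : ∀ a b : ZMod 2, (a.val + b.val = (a + b).val) ∨
      (a.val + b.val = 2 ∧ (a + b).val = 0) := by decide
  rw [← pow_add]
  rcases key a b with h1 | ⟨h1, h2⟩
  · rw [h1]
  · rw [h1, h2, pow_two, h, pow_zero]

theorem tt_pow (a b c x : ZMod 2) : tt a b c ^ x.val = tt (x * a) (x * b) (x * c) := by
  have hx : x = 0 ∨ x = 1 := by revert x; decide
  rcases hx with rfl | rfl
  · rw [zero_mul, zero_mul, zero_mul, tt_zero]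
    rfl
  · rw [one_mul, one_mul, one_mul]
    exact pow_one _

/-- the Maschke part -/
theorem absQ {Q : Type*} [Group Q] (h2 : ∀ q : Q, q * q = 1) (R S : Q →* Q) (p : Q →* Gam)
    (hR : ∀ q, R (R (R (R (R (R (R q)))))) = q) (hS : ∀ q, S (S (S q)) = q)
    (hSR : ∀ q, S (R q) = R (R (S q))) (hpR : ∀ q, p (R q) = gh * p q * gh⁻¹)
    (hpS : ∀ q, p (S q) = gs * p q * gs⁻¹) (hsurj : ∃ q, p q = gt) :
    ∃ T : Subgroup Q, (∀ q ∈ T, R q ∈ T) ∧ (∀ q ∈ T, S q ∈ T) ∧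
      (∀ t ∈ TT, ∃ q ∈ T, p q = t) ∧ (∀ q ∈ T, p q = 1 → q = 1) := by
  have hinv : ∀ q : Q, q⁻¹ = q := fun q => inv_eq_of_mul_eq_one_right (h2 q)
  have hcomm : ∀ a b : Q, a * b = b * a := by
    intro a b
    rw [← hinv (a * b), _root_.mul_inv_rev, hinv, hinv]
  let : CommGroup Q := { ‹Group Q› with mul_comm := hcomm }
  obtain ⟨q1, hq1⟩ := hsurj
  -- fixed by S
  set q : Q := q1 * S q1 * S (S q1) with hq
  have hSq : S q = q := by
    rw [hq, map_mul, map_mul, hS]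
    rw [mul_comm _ q1, mul_assoc]
  have hpq : p q = gt := by
    rw [hq]
    simp only [map_mul, hpS, hq1, gt_eq, conj_gs, tt_mul]
    decide
  set v : Q := q * R (R (R q)) * R (R (R (R (R q)))) * R (R (R (R (R (R q))))) with hv
  have hpv : p v = tt 1 0 0 := by
    rw [hv]
    simp only [map_mul, hpR, hpq, gt_eq, conj_gh, tt_mul]
    decide
  have hSv : S v = v := by
    rw [hv]
    simp only [map_mul, hSR, hSq]
    simp only [hR]
    ac_rfl
  have hR3 : R (R (R v)) = v * R (R v) := by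
    have e : ∀ x y : Q, x * y * y = x := fun x y => by rw [mul_assoc, h2, mul_one]
    rw [hv]
    simp only [map_mul]
    simp only [hR]
    have key : ∀ a b c d e f g : Q, d * g * b * c = a * d * f * g * (c * f * a * b) := by
      intro a b c d e f g
      calc d * g * b * c = d * g * b * c * (a * a) * (f * f) := by rw [h2, h2, mul_one, mul_one]
        _ = _ := by ac_rfl
    exact key q (R q) (R (R q)) (R (R (R q))) (R (R (R (R q)))) (R (R (R (R (R q)))))
      (R (R (R (R (R (R q))))))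
  set w : Q := R v with hw
  set z : Q := R w with hz
  have hRz : R z = v * z := hR3
  have hpw : p w = tt 1 1 0 := by
    rw [hw, hpR, hpv, conj_gh]
    decide
  have hpz : p z = tt 1 1 1 := by
    rw [hz, hpR, hpw, conj_gh]
    decide
  have hSw : S w = z := by
    rw [hw, hSR, hSv]
  have hSz : S z = w * (v * z) := by
    rw [hz, hSR, hSw, hRz, map_mul, hRz]
  let T : Subgroup Q :=
    { carrier := {q | ∃ a b c : ZMod 2, q = v ^ a.val * w ^ b.val * z ^ c.val}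
      one_mem' := ⟨0, 0, 0, by simp⟩
      mul_mem' := by
        rintro _ _ ⟨a, b, c, rfl⟩ ⟨a', b', c', rfl⟩
        refine ⟨a + a', b + b', c + c', ?_⟩
        rw [← pow_val (h2 v), ← pow_val (h2 w), ← pow_val (h2 z)]
        ac_rfl
      inv_mem' := by
        rintro x hx
        rw [hinv]
        exact hx }
  have hmem : ∀ x : Q, x ∈ T ↔ ∃ a b c : ZMod 2, x = v ^ a.val * w ^ b.val * z ^ c.val :=
    fun x => Iff.rfl
  have v1 : (1 : ZMod 2).val = 1 := rfl
  have hvT : v ∈ T := (hmem v).2 ⟨1, 0, 0, by rw [v1]; simp⟩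
  have hwT : w ∈ T := (hmem w).2 ⟨0, 1, 0, by rw [v1]; simp⟩
  have hzT : z ∈ T := (hmem z).2 ⟨0, 0, 1, by rw [v1]; simp⟩
  refine ⟨T, ?_, ?_, ?_, ?_⟩
  · intro x hx
    obtain ⟨a, b, c, rfl⟩ := (hmem x).1 hx
    rw [map_mul, map_mul, map_pow, map_pow, map_pow, ← hw, ← hz, hRz]
    exact T.mul_mem (T.mul_mem (T.pow_mem hwT _) (T.pow_mem hzT _))
      (T.pow_mem (T.mul_mem hvT hzT) _)
  · intro x hx
    obtain ⟨a, b, c, rfl⟩ := (hmem x).1 hx
    rw [map_mul, map_mul, map_pow, map_pow, map_pow, hSv, hSw, hSz]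
    exact T.mul_mem (T.mul_mem (T.pow_mem hvT _) (T.pow_mem hzT _))
      (T.pow_mem (T.mul_mem hwT (T.mul_mem hvT hzT)) _)
  · intro t ht
    obtain ⟨a, b, c, rfl⟩ := mem_TT.1 ht
    refine ⟨v ^ (a + b).val * w ^ (b + c).val * z ^ c.val, (hmem _).2 ⟨_, _, _, rfl⟩, ?_⟩
    rw [map_mul, map_mul, map_pow, map_pow, map_pow, hpv, hpw, hpz, tt_pow, tt_pow, tt_pow,
      tt_mul, tt_mul]
    clear ht
    revert a b c
    decide +kernel
  · intro x hx hp1
    obtain ⟨a, b, c, rfl⟩ := (hmem x).1 hx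
    rw [map_mul, map_mul, map_pow, map_pow, map_pow, hpv, hpw, hpz, tt_pow, tt_pow, tt_pow,
      tt_mul, tt_mul] at hp1
    obtain ⟨h3, h4, h5⟩ := tt_inj hp1
    have h6 : c = 0 := by simpa using h5
    subst h6
    have h7 : b = 0 := by simpa using h4
    subst h7
    have h8 : a = 0 := by simpa using h3
    subst h8
    simp

/-- the subgroups considered -/
structure Good {G : Type*} [Group G] (π : G →* Gam) (s ρ : G) (U : Subgroup G) : Prop where
  nρ : ∀ u ∈ U, ρ * u * ρ⁻¹ ∈ U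
  ns : ∀ u ∈ U, s * u * s⁻¹ ∈ U
  map : ∀ u ∈ U, π u ∈ TT
  surj : ∀ t ∈ TT, ∃ u ∈ U, π u = t

theorem good_top {G : Type*} [Group G] (π : G →* Gam) (hπ : Function.Surjective π) (s ρ : G)
    (hs : π s = gs) (hρ : π ρ = gh) : ∃ U : Subgroup G, Good π s ρ U := by
  refine ⟨{ carrier := {g | π g ∈ TT}, one_mem' := ?_, mul_mem' := ?_, inv_mem' := ?_ },
    ⟨?_, ?_, ?_, ?_⟩⟩
  · rintro a b ha hb
    obtain ⟨x, y, z, h1⟩ := mem_TT.1 ha
    obtain ⟨x', y', z', h2⟩ := mem_TT.1 hb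
    refine mem_TT.2 ⟨x + x', y + y', z + z', ?_⟩
    rw [map_mul, h1, h2, tt_mul]
  · refine mem_TT.2 ⟨0, 0, 0, ?_⟩
    rw [map_one, tt_zero]
  · rintro a ha
    obtain ⟨x, y, z, h1⟩ := mem_TT.1 ha
    refine mem_TT.2 ⟨x, y, z, ?_⟩
    rw [map_inv, h1, inv_eq_iff_mul_eq_one, tt_sq]
  · rintro u hu
    obtain ⟨x, y, z, h1⟩ := mem_TT.1 hu
    refine mem_TT.2 ⟨x + z, x, y, ?_⟩
    rw [map_mul, map_mul, map_inv, hρ, h1, conj_gh]
  · rintro u hu
    obtain ⟨x, y, z, h1⟩ := mem_TT.1 hu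
    refine mem_TT.2 ⟨x, y + z, y, ?_⟩
    rw [map_mul, map_mul, map_inv, hs, h1, conj_gs]
  · exact fun u hu => hu
  · intro t ht
    obtain ⟨u, hu⟩ := hπ t
    exact ⟨u, by change π u ∈ TT; rwa [hu], hu⟩

/-- conjugation on a subgroup -/
def cj {G : Type*} [Group G] (U : Subgroup G) (r : G) (h : ∀ u ∈ U, r * u * r⁻¹ ∈ U) : U →* U :=
  MonoidHom.mk' (fun u => ⟨r * u * r⁻¹, h u u.2⟩) (by
    intro a b
    apply Subtype.ext
    change r * ((a : G) * b) * r⁻¹ = r * a * r⁻¹ * (r * b * r⁻¹)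
    group)

theorem cj_coe {G : Type*} [Group G] (U : Subgroup G) (r : G) (h : ∀ u ∈ U, r * u * r⁻¹ ∈ U)
    (u : U) : ((cj U r h u : U) : G) = r * u * r⁻¹ := rfl

/-- the subgroup generated by the squares -/
def Phi {G : Type*} [Group G] (U : Subgroup G) : Subgroup U :=
  Subgroup.normalClosure {x | ∃ u : U, x = u * u}

instance {G : Type*} [Group G] (U : Subgroup G) : (Phi U).Normal := Subgroup.normalClosure_normal

theorem sq_mem_Phi {G : Type*} [Group G] (U : Subgroup G) (u : U) : u * u ∈ Phi U :=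
  Subgroup.subset_normalClosure ⟨u, rfl⟩

theorem Phi_le {G : Type*} [Group G] (U : Subgroup G) (N : Subgroup U) (hN : N.Normal)
    (h : ∀ u : U, u * u ∈ N) : Phi U ≤ N := by
  have := hN
  apply Subgroup.normalClosure_le_normal
  rintro _ ⟨u, rfl⟩
  exact h u

theorem Phi_cj {G : Type*} [Group G] (U : Subgroup G) (f : U →* U) :
    Phi U ≤ (Phi U).comap f := by
  apply Phi_le
  · infer_instance
  · intro u
    rw [Subgroup.mem_comap, map_mul]
    exact sq_mem_Phi U _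

/-- the elements of `U ∩ K` lie in `Phi` when `U` is minimal -/
theorem exists_min {G : Type*} [Group G] [Finite G] (π : G →* Gam) (hπ : Function.Surjective π)
    (s ρ : G) (hs3 : s ^ 3 = 1) (hρ7 : ρ ^ 7 = 1) (hsρ : s * ρ * s⁻¹ = ρ ^ 2)
    (hs : π s = gs) (hρ : π ρ = gh) :
    ∃ U : Subgroup G, Good π s ρ U ∧ ∀ u : U, π u = 1 → u ∈ Phi U := by
  obtain ⟨U, hU, hmin⟩ := (wellFounded_lt : WellFounded
    ((· < ·) : Subgroup G → Subgroup G → Prop)).has_min {U | Good π s ρ U}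
    (good_top π hπ s ρ hs hρ)
  refine ⟨U, hU, ?_⟩
  have hsq : ∀ u : U, π (u : G) * π (u : G) = 1 := by
    intro u
    obtain ⟨x, y, z, h1⟩ := mem_TT.1 (hU.map u u.2)
    rw [h1, tt_sq]
  let R : U ⧸ Phi U →* U ⧸ Phi U := QuotientGroup.map _ _ (cj U ρ hU.nρ) (Phi_cj U _)
  let S : U ⧸ Phi U →* U ⧸ Phi U := QuotientGroup.map _ _ (cj U s hU.ns) (Phi_cj U _)
  have hPK : Phi U ≤ (π.comp U.subtype).ker := by
    apply Phi_le
    · infer_instance
    · intro u
      rw [MonoidHom.mem_ker, map_mul]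
      exact hsq u
  let p : U ⧸ Phi U →* Gam := QuotientGroup.lift _ (π.comp U.subtype) hPK
  have hRm : ∀ u : U, R (QuotientGroup.mk u) = QuotientGroup.mk (cj U ρ hU.nρ u) := fun u => rfl
  have hSm : ∀ u : U, S (QuotientGroup.mk u) = QuotientGroup.mk (cj U s hU.ns u) := fun u => rfl
  have hpm : ∀ u : U, p (QuotientGroup.mk u) = π (u : G) := fun u => rfl
  obtain ⟨T, hT1, hT2, hT3, hT4⟩ := absQ (Q := U ⧸ Phi U) (by
      intro q
      induction q using QuotientGroup.induction_on with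
      | H u =>
        rw [← QuotientGroup.mk_mul, QuotientGroup.eq_one_iff]
        exact sq_mem_Phi U u) R S p (by
      intro q
      induction q using QuotientGroup.induction_on with
      | H u =>
        simp only [hRm]
        congr 1
        apply Subtype.ext
        simp only [cj_coe]
        calc ρ * (ρ * (ρ * (ρ * (ρ * (ρ * (ρ * u * ρ⁻¹) * ρ⁻¹) * ρ⁻¹) * ρ⁻¹) * ρ⁻¹) * ρ⁻¹) * ρ⁻¹
            = ρ ^ 7 * u * (ρ ^ 7)⁻¹ := by simp only [pow_succ, pow_zero, one_mul]; group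
          _ = u := by rw [hρ7]; simp) (by
      intro q
      induction q using QuotientGroup.induction_on with
      | H u =>
        simp only [hSm]
        congr 1
        apply Subtype.ext
        simp only [cj_coe]
        calc s * (s * (s * u * s⁻¹) * s⁻¹) * s⁻¹ = s ^ 3 * u * (s ^ 3)⁻¹ := by
              simp only [pow_succ, pow_zero, one_mul]; group
          _ = u := by rw [hs3]; simp) (by
      intro q
      induction q using QuotientGroup.induction_on with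
      | H u =>
        simp only [hSm, hRm]
        congr 1
        apply Subtype.ext
        simp only [cj_coe]
        calc s * (ρ * u * ρ⁻¹) * s⁻¹ = (s * ρ * s⁻¹) * (s * u * s⁻¹) * (s * ρ * s⁻¹)⁻¹ := by group
          _ = _ := by rw [hsρ]; simp only [pow_succ, pow_zero, one_mul]; group) (by
      intro q
      induction q using QuotientGroup.induction_on with
      | H u =>
        rw [hRm, hpm, hpm, cj_coe, map_mul, map_mul, map_inv, hρ]) (by
      intro q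
      induction q using QuotientGroup.induction_on with
      | H u =>
        rw [hSm, hpm, hpm, cj_coe, map_mul, map_mul, map_inv, hs]) (by
      obtain ⟨u, hu, hu'⟩ := hU.surj gt (mem_TT.2 ⟨1, 0, 0, gt_eq⟩)
      exact ⟨QuotientGroup.mk ⟨u, hu⟩, hu'⟩)
  -- minimality
  let U' : Subgroup G := (T.comap (QuotientGroup.mk' (Phi U))).map U.subtype
  have hmemU' : ∀ x : G, x ∈ U' ↔ ∃ h : x ∈ U, (QuotientGroup.mk (⟨x, h⟩ : U) : U ⧸ Phi U) ∈ T := by
    intro x
    constructor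
    · rintro ⟨y, hy, rfl⟩
      exact ⟨y.2, hy⟩
    · rintro ⟨h, hx⟩
      exact ⟨⟨x, h⟩, hx, rfl⟩
  have hU'U : U' ≤ U := fun x hx => ((hmemU' x).1 hx).1
  have hU'good : Good π s ρ U' := by
    refine ⟨?_, ?_, ?_, ?_⟩
    · intro u hu
      obtain ⟨h, hu'⟩ := (hmemU' u).1 hu
      exact (hmemU' _).2 ⟨hU.nρ u h, hT1 _ hu'⟩
    · intro u hu
      obtain ⟨h, hu'⟩ := (hmemU' u).1 hu
      exact (hmemU' _).2 ⟨hU.ns u h, hT2 _ hu'⟩
    · exact fun u hu => hU.map u (hU'U hu)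
    · intro t ht
      obtain ⟨q, hq, hq'⟩ := hT3 t ht
      induction q using QuotientGroup.induction_on with
      | H u => exact ⟨u, (hmemU' _).2 ⟨u.2, hq⟩, hq'⟩
  have hUU' : U' = U := by
    by_contra hne
    exact hmin U' hU'good (lt_of_le_of_ne hU'U hne)
  intro u hu
  have h1 : (u : G) ∈ U' := by
    rw [hUU']
    exact u.2
  obtain ⟨h, h2⟩ := (hmemU' _).1 h1
  have h3 := hT4 _ h2 hu
  rwa [QuotientGroup.eq_one_iff] at h3

/-! ### finite checks -/

theorem chk1 : ∀ x y : Fin 4 → ZMod 2, gt.1 *ᵥ x = x → gs.1 *ᵥ x = x + (gt⁻¹).1 *ᵥ y + y →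
    x = ![0, 0, 0, 0] ∨ x = ![1, 0, 0, 0] := by
  decide +kernel

theorem chk2 : ∀ a b c : ZMod 2, (tt a b c).1 *ᵥ ![1, 0, 0, 0] = ![1, 0, 0, 0] := by
  decide +kernel

theorem chk3 : gh.1 *ᵥ ![1, 0, 0, 0] = (![1, 0, 0, 0] : Fin 4 → ZMod 2) := by
  decide +kernel

theorem zero_vec : (0 : MV) = ![0, 0, 0, 0] := by
  funext i
  fin_cases i <;> rfl

theorem tt_fix {t : Gam} (ht : t ∈ TT) {x : MV} (hx : x = 0 ∨ x = vE0) : act t x = x := by
  obtain ⟨a, b, c, rfl⟩ := mem_TT.1 ht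
  rcases hx with rfl | rfl
  · exact act_zero _
  · rw [act_MV]
    exact chk2 a b c

theorem gh_fix {x : MV} (hx : x = 0 ∨ x = vE0) : act gh x = x := by
  rcases hx with rfl | rfl
  · exact act_zero _
  · rw [act_MV]
    exact chk3

theorem orbit : ∀ a b c : ZMod 2, ¬ (a = 0 ∧ b = 0 ∧ c = 0) →
    ∃ i : Fin 7, tt a b c = gh ^ (i : ℕ) * gt * (gh ^ (i : ℕ))⁻¹ := by
  have h1 : ∀ i : ℕ, gh ^ (i + 1) * gt * (gh ^ (i + 1))⁻¹ =
      gh * (gh ^ i * gt * (gh ^ i)⁻¹) * gh⁻¹ := by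
    intro i
    rw [pow_succ']
    group
  have e0 : gh ^ 0 * gt * (gh ^ 0)⁻¹ = tt 1 0 0 := by rw [gt_eq]; simp
  have e1 : gh ^ 1 * gt * (gh ^ 1)⁻¹ = tt 1 1 0 := by
    rw [h1 0, e0, conj_gh, add_zero]
  have e2 : gh ^ 2 * gt * (gh ^ 2)⁻¹ = tt 1 1 1 := by
    rw [h1 1, e1, conj_gh, add_zero]
  have e3 : gh ^ 3 * gt * (gh ^ 3)⁻¹ = tt 0 1 1 := by
    rw [h1 2, e2, conj_gh, show (1 : ZMod 2) + 1 = 0 by decide]
  have e4 : gh ^ 4 * gt * (gh ^ 4)⁻¹ = tt 1 0 1 := by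
    rw [h1 3, e3, conj_gh, zero_add]
  have e5 : gh ^ 5 * gt * (gh ^ 5)⁻¹ = tt 0 1 0 := by
    rw [h1 4, e4, conj_gh, show (1 : ZMod 2) + 1 = 0 by decide]
  have e6 : gh ^ 6 * gt * (gh ^ 6)⁻¹ = tt 0 0 1 := by
    rw [h1 5, e5, conj_gh, zero_add]
  intro a b c h
  have h01 : ∀ a : ZMod 2, a = 0 ∨ a = 1 := by decide
  have ha := h01 a
  have hb := h01 b
  have hc := h01 c
  rcases ha with rfl | rfl <;> rcases hb with rfl | rfl <;> rcases hc with rfl | rfl
  · exact absurd ⟨rfl, rfl, rfl⟩ h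
  · exact ⟨6, e6.symm⟩
  · exact ⟨5, e5.symm⟩
  · exact ⟨3, e3.symm⟩
  · exact ⟨0, e0.symm⟩
  · exact ⟨4, e4.symm⟩
  · exact ⟨1, e1.symm⟩
  · exact ⟨2, e2.symm⟩

/-- homomorphisms to `V` kill the squares -/
theorem kill {G : Type*} [Group G] (π : G →* Gam) (s ρ : G) (hρ7 : ρ ^ 7 = 1)
    (hs : π s = gs) (hρ : π ρ = gh) (U : Subgroup G) (hU : Good π s ρ U)
    (hP : ∀ u : U, π u = 1 → u ∈ Phi U) (φ : G → MV) (hφ : HomOn π π.ker φ) :
    ∀ u ∈ U, φ (u * u) = 0 := by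
  have hsqK : ∀ u ∈ U, u * u ∈ π.ker := by
    intro u hu
    obtain ⟨x, y, z, h1⟩ := mem_TT.1 (hU.map u hu)
    rw [MonoidHom.mem_ker, map_mul, h1, tt_sq]
  have hKn : π.ker.Normal := inferInstance
  -- the square of `u k`
  have hmulk : ∀ u ∈ U, ∀ k ∈ π.ker, φ (u * k * (u * k)) =
      φ (u * u) + act ((π u)⁻¹) (φ k) + φ k := by
    intro u hu k hk
    have e : u * k * (u * k) = u * u * (u⁻¹ * k * u⁻¹⁻¹) * k := by group
    have hk' : u⁻¹ * k * u⁻¹⁻¹ ∈ π.ker := hKn.conj_mem k hk _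
    rw [e, hφ.mul _ (mul_mem (hsqK u hu) hk') _ hk, hφ.mul _ (hsqK u hu) _ hk', hφ.conj _ _ hk,
      map_inv]
  -- conjugates by powers of ρ
  have hρi : ∀ (i : ℕ) (u : G), u ∈ U → ρ ^ i * u * (ρ ^ i)⁻¹ ∈ U := by
    intro i
    induction i with
    | zero => intro u hu; simpa using hu
    | succ i ih =>
      intro u hu
      have h1 := hU.nρ _ (ih u hu)
      rw [pow_succ']
      have e : ρ * ρ ^ i * u * (ρ * ρ ^ i)⁻¹ = ρ * (ρ ^ i * u * (ρ ^ i)⁻¹) * ρ⁻¹ := by group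
      rw [e]
      exact h1
  have hρi' : ∀ (i : ℕ) (u : G), u ∈ U → (ρ ^ i)⁻¹ * u * ρ ^ i ∈ U := by
    intro i u hu
    have h1 := hρi (6 * i) u hu
    have e : ρ ^ (6 * i) = (ρ ^ i)⁻¹ := by
      rw [eq_inv_iff_mul_eq_one, ← pow_add, show 6 * i + i = 7 * i by ring, pow_mul, hρ7, one_pow]
    rw [e, inv_inv] at h1
    exact h1
  -- (2a) over gt
  have hgt : ∀ u ∈ U, π u = gt → φ (u * u) = 0 ∨ φ (u * u) = vE0 := by
    intro u hu hπu
    have h1 : act gt (φ (u * u)) = φ (u * u) := by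
      rw [← hπu, ← hφ.conj u _ (hsqK u hu)]
      congr 1
      group
    set k := u⁻¹ * (s * u * s⁻¹) with hk
    have hkK : k ∈ π.ker := by
      rw [hk, MonoidHom.mem_ker, map_mul, map_inv, map_mul, map_mul, map_inv, hπu, hs, ← gt_gs]
      group
    have h2 : act gs (φ (u * u)) = φ (u * u) + act gt⁻¹ (φ k) + φ k := by
      rw [← hs, ← hφ.conj s _ (hsqK u hu), ← hπu, ← hmulk u hu k hkK]
      congr 1
      rw [hk]
      group
    rw [act_MV] at h1
    rw [act_MV, act_MV] at h2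
    rw [zero_vec]
    exact chk1 _ _ h1 h2
  -- general u, with reduction to gt
  have hred : ∀ u ∈ U, π u ≠ 1 → ∃ i : ℕ, ∃ u' ∈ U, π u' = gt ∧ u = ρ ^ i * u' * (ρ ^ i)⁻¹ := by
    intro u hu hne
    obtain ⟨a, b, c, h1⟩ := mem_TT.1 (hU.map u hu)
    obtain ⟨i, hi⟩ := orbit a b c (by
      rintro ⟨rfl, rfl, rfl⟩
      exact hne (h1.trans tt_zero))
    refine ⟨i, (ρ ^ (i : ℕ))⁻¹ * u * ρ ^ (i : ℕ), hρi' _ u hu, ?_, by group⟩
    rw [map_mul, map_mul, map_inv, map_pow, hρ, h1, hi]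
    group
  have hghi : ∀ (i : ℕ) (x : MV), (x = 0 ∨ x = vE0) → act (gh ^ i) x = x := by
    intro i x hx
    induction i with
    | zero => rw [pow_zero, act_one]
    | succ i ih => rw [pow_succ, act_mul, gh_fix hx, ih]
  have hsq' : ∀ (i : ℕ) (u' : G), u' ∈ U → π u' = gt →
      φ ((ρ ^ i * u' * (ρ ^ i)⁻¹) * (ρ ^ i * u' * (ρ ^ i)⁻¹)) = φ (u' * u') := by
    intro i u' hu' hπu'
    have e : (ρ ^ i * u' * (ρ ^ i)⁻¹) * (ρ ^ i * u' * (ρ ^ i)⁻¹) =
        ρ ^ i * (u' * u') * (ρ ^ i)⁻¹ := by group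
    rw [e, hφ.conj _ _ (hsqK u' hu'), map_pow, hρ]
    exact hghi i _ (hgt u' hu' hπu')
  have hall : ∀ u ∈ U, φ (u * u) = 0 ∨ φ (u * u) = vE0 := by
    intro u hu
    by_cases h1 : π u = 1
    · left
      have hk : u ∈ π.ker := h1
      rw [hφ.mul u hk u hk, add_self]
    · obtain ⟨i, u', hu', hπu', rfl⟩ := hred u hu h1
      rw [hsq' i u' hu' hπu']
      exact hgt u' hu' hπu'
  -- (2b)
  have hUK : ∀ u ∈ U, π u = 1 → φ u = 0 ∨ φ u = vE0 := by
    have h3 : Phi U ≤ ({ carrier := {u : U | (u : G) ∈ π.ker ∧ (φ u = 0 ∨ φ u = vE0)}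
                         one_mem' := ⟨map_one π, Or.inl hφ.map_one⟩
                         mul_mem' := by
                            rintro a b ⟨ha, ha'⟩ ⟨hb, hb'⟩
                            refine ⟨mul_mem ha hb, ?_⟩
                            change φ ((a : G) * b) = 0 ∨ φ ((a : G) * b) = vE0
                            rw [hφ.mul _ ha _ hb]
                            rcases ha' with h | h <;> rcases hb' with h' | h' <;> rw [h, h']
                            · left; exact add_zero _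
                            · right; exact zero_add _
                            · right; exact add_zero _
                            · left; exact add_self _
                         inv_mem' := by
                            rintro a ⟨ha, ha'⟩
                            refine ⟨inv_mem ha, ?_⟩
                            change φ ((a : G)⁻¹) = 0 ∨ φ ((a : G)⁻¹) = vE0
                            rw [hφ.map_inv ha]
                            exact ha' } : Subgroup U) := by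
      apply Phi_le
      · constructor
        rintro a ⟨ha, ha'⟩ g
        refine ⟨hKn.conj_mem _ ha _, ?_⟩
        change φ ((g : G) * a * (g : G)⁻¹) = 0 ∨ φ ((g : G) * a * (g : G)⁻¹) = vE0
        rw [hφ.conj _ _ ha, tt_fix (hU.map g g.2) ha']
        exact ha'
      · intro u
        exact ⟨hsqK u u.2, hall u u.2⟩
    intro u hu h1
    exact (h3 (hP ⟨u, hu⟩ h1)).2
  -- (2c)
  have hsame : ∀ u ∈ U, ∀ u' ∈ U, π u = π u' → φ (u * u) = φ (u' * u') := by
    intro u hu u' hu' h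
    have hk : π (u⁻¹ * u') = 1 := by
      rw [map_mul, map_inv, h, inv_mul_cancel]
    have h1 := hmulk u hu (u⁻¹ * u') hk
    have h2 := hUK (u⁻¹ * u') (mul_mem (inv_mem hu) hu') hk
    have h3 : act (π u)⁻¹ (φ (u⁻¹ * u')) = φ (u⁻¹ * u') := by
      have h4 := tt_fix (hU.map _ (inv_mem hu)) h2
      rwa [map_inv] at h4
    rw [h3, add_assoc, add_self, add_zero, mul_inv_cancel_left] at h1
    exact h1.symm
  -- (2d)
  obtain ⟨u0, hu0, hπ0⟩ := hU.surj gt (mem_TT.2 ⟨1, 0, 0, gt_eq⟩)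
  have hconst : ∀ u ∈ U, π u ≠ 1 → φ (u * u) = φ (u0 * u0) := by
    intro u hu h1
    obtain ⟨i, u', hu', hπu', rfl⟩ := hred u hu h1
    rw [hsq' i u' hu' hπu']
    exact hsame u' hu' u0 hu0 (hπu'.trans hπ0.symm)
  set c := φ (u0 * u0) with hc
  have hcE : c = 0 ∨ c = vE0 := hgt u0 hu0 hπ0
  -- (2e)
  have hcommK : ∀ u ∈ U, ∀ u' ∈ U, ⁅u⁻¹, u'⁆ ∈ π.ker := by
    intro u hu u' hu'
    obtain ⟨x, y, z, h1⟩ := mem_TT.1 (hU.map u hu)
    obtain ⟨x', y', z', h2⟩ := mem_TT.1 (hU.map u' hu')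
    rw [MonoidHom.mem_ker, commutatorElement_def, inv_inv, map_mul, map_mul, map_mul, map_inv,
      map_inv, h1, h2]
    have h3 : tt x y z * tt x' y' z' = tt x' y' z' * tt x y z := by
      rw [tt_mul, tt_mul, add_comm x, add_comm y, add_comm z]
    rw [mul_assoc ((tt x y z)⁻¹), ← h3]
    group
  have hcomm : ∀ u ∈ U, ∀ u' ∈ U, π u ≠ 1 → π u' ≠ 1 → π (u * u') ≠ 1 → φ ⁅u⁻¹, u'⁆ = c := by
    intro u hu u' hu' h1 h2 h3
    have e : (u * u') * (u * u') = (u * u) * ⁅u⁻¹, u'⁆ * (u' * u') := by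
      rw [commutatorElement_def]
      group
    have h4 := hconst _ (mul_mem hu hu') h3
    rw [e, hφ.mul _ (mul_mem (hsqK u hu) (hcommK u hu u' hu')) _ (hsqK u' hu'),
      hφ.mul _ (hsqK u hu) _ (hcommK u hu u' hu'), hconst u hu h1, hconst u' hu' h2] at h4
    have h5 : c + φ ⁅u⁻¹, u'⁆ + c = φ ⁅u⁻¹, u'⁆ := by
      rw [add_comm c, add_assoc, add_self, add_zero]
    rw [h5] at h4
    exact h4
  obtain ⟨u1, hu1, hπ1⟩ := hU.surj (tt 1 0 0) (mem_TT.2 ⟨_, _, _, rfl⟩)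
  obtain ⟨u2, hu2, hπ2⟩ := hU.surj (tt 0 1 0) (mem_TT.2 ⟨_, _, _, rfl⟩)
  obtain ⟨u3, hu3, hπ3⟩ := hU.surj (tt 0 0 1) (mem_TT.2 ⟨_, _, _, rfl⟩)
  have hne : ∀ a b c : ZMod 2, (a ≠ 0 ∨ b ≠ 0 ∨ c ≠ 0) → tt a b c ≠ 1 := by
    intro a b c h h1
    obtain ⟨h2, h3, h4⟩ := tt_inj h1
    rcases h with h | h | h
    · exact h h2
    · exact h h3
    · exact h h4
  have h12 := hcomm u1 hu1 u2 hu2 (by rw [hπ1]; exact hne _ _ _ (by decide))
    (by rw [hπ2]; exact hne _ _ _ (by decide))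
    (by rw [map_mul, hπ1, hπ2, tt_mul]; exact hne _ _ _ (by decide))
  have h13 := hcomm u1 hu1 u3 hu3 (by rw [hπ1]; exact hne _ _ _ (by decide))
    (by rw [hπ3]; exact hne _ _ _ (by decide))
    (by rw [map_mul, hπ1, hπ3, tt_mul]; exact hne _ _ _ (by decide))
  have h123 := hcomm u1 hu1 (u2 * u3) (mul_mem hu2 hu3) (by rw [hπ1]; exact hne _ _ _ (by decide))
    (by rw [map_mul, hπ2, hπ3, tt_mul]; exact hne _ _ _ (by decide))
    (by rw [map_mul, map_mul, hπ1, hπ2, hπ3, tt_mul, tt_mul]; exact hne _ _ _ (by decide))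
  have e : ⁅u1⁻¹, u2 * u3⁆ = ⁅u1⁻¹, u2⁆ * (u2 * ⁅u1⁻¹, u3⁆ * u2⁻¹) := by
    simp only [commutatorElement_def]
    group
  have hk3 := hcommK u1 hu1 u3 hu3
  rw [e, hφ.mul _ (hcommK u1 hu1 u2 hu2) _ (hKn.conj_mem _ hk3 _), hφ.conj _ _ hk3, h12, h13,
    tt_fix (hU.map u2 hu2) hcE, add_self] at h123
  -- conclusion
  intro u hu
  by_cases h1 : π u = 1
  · have hk : u ∈ π.ker := h1
    rw [hφ.mul u hk u hk, add_self]
  · rw [hconst u hu h1, ← h123]

end G20

theorem bUL (h1 : S_COP) : S_UL := by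
  intro G _ _ π hC Y0 hY0n hY0K hG s ρ hs πs hρ
  obtain ⟨U, hU, hP⟩ := G20.exists_min π hC.surj s ρ hs hρ.r7 hρ.sρ πs hρ.πρ
  refine ⟨U, hU.nρ, hU.ns, hU.map, hU.surj, ?_⟩
  have hsq : ∀ u ∈ U, u * u ∈ Y0 := by
    intro u hu
    have hK : u * u ∈ π.ker := by
      obtain ⟨x, y, z, h1⟩ := G20.mem_TT.1 (hU.map u hu)
      rw [MonoidHom.mem_ker, map_mul, h1, G20.tt_sq]
    exact hG _ hK fun φ hφ _ => G20.kill π s ρ hρ.r7 πs hρ.πρ U hU hP φ hφ u hu
  have h3 : G20.Phi U ≤ Y0.subgroupOf U := by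
    apply G20.Phi_le
    · infer_instance
    · intro u
      exact hsq u u.2
  intro u hu h1
  exact h3 (hP ⟨u, hu⟩ h1)

end Pool.Agent.A8
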